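import Mathlib
import Pool.Agent.Chud.Defs
import Pool.Agent.H580C.CH.All

set_option autoImplicit false

namespace Pool.Agent.Results.MP_5c592f_ag.DemaillyInequality

open Pool.Agent.Chud

/-- **The inequality of Chudnovsky and Demailly for all finite sets of points.** Let `S` be a
nonempty finite set of points of the projective space of dimension `N ≥ 1` over an algebraically
closed field (of any characteristic). Then `(a(S,t)+N-1)/(t+N-1) ≤ a(S,m)/m` for all `t ≥ 1` and
`m ≥ 1`; the case `t = 1` is Chudnovsky's conjecture. -/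
theorem result {k : Type*} [Field k] [IsAlgClosed k] (N : ℕ) (hN : 1 ≤ N) (S : Finset (PP k N))
    (hS : S.Nonempty) (t m : ℕ) (ht : 1 ≤ t) (hm : 1 ≤ m) :
    ((aS S t : ℝ) + N - 1) / ((t : ℝ) + N - 1) ≤ (aS S m : ℝ) / m := by
  have h := Pool.Agent.H580C.demailly hN S hS t m ht
  have hm0 : (0 : ℝ) < m := by exact_mod_cast hm
  have ht0 : (0 : ℝ) < (t : ℝ) + N - 1 := by
    have h1 : (1 : ℝ) ≤ t := by exact_mod_cast ht
    have h2 : (1 : ℝ) ≤ N := by exact_mod_cast hN
    linarith
  rw [div_le_div_iff₀ ht0 hm0]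
  have h3 : ((m * (aS S t + N - 1) : ℕ) : ℝ) ≤ ((aS S m * (t + N - 1) : ℕ) : ℝ) := by
    exact_mod_cast h
  rw [Nat.cast_mul, Nat.cast_mul, Nat.cast_sub (by omega), Nat.cast_sub (by omega), Nat.cast_add,
    Nat.cast_add, Nat.cast_one] at h3
  linarith

end Pool.Agent.Results.MP_5c592f_ag.DemaillyInequality
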