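import Mathlib
import Pool.Agent.Chud.Defs
import Pool.Agent.H580C.CH.All

set_option autoImplicit false

namespace Pool.Agent.Results.MP_5c592f_ag.EqualityAllDimensions

open Pool.Agent.Chud

/-- **Equality in Chudnovsky's bound, in all dimensions and all characteristics.** Let `S` be a
finite set of points of the projective space of dimension `N ≥ 1` over an algebraically closed
field. If `a(S,m)/m = (a(S,1)+N-1)/N` for some `m ≥ 1`, then `S` is contained in a hyperplane or
`S` is a star configuration. -/
theorem result {k : Type*} [Field k] [IsAlgClosed k] (N : ℕ) (hN : 1 ≤ N) (S : Finset (PP k N))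
    (m : ℕ) (hm : 1 ≤ m) (h : (aS S m : ℝ) / m = ((aS S 1 : ℝ) + N - 1) / N) :
    InHyperplane S ∨ IsStar S :=
  Pool.Agent.H580C.equality hN S m hm h

end Pool.Agent.Results.MP_5c592f_ag.EqualityAllDimensions
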